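import Pool.Agent.Lib.MP_5c9ca0_co.Defs
import Pool.Agent.Lib.MP_5c9ca0_co.Ring

namespace Pool.Agent.Retired.MP_5c9ca0_co.Interval

open Pool.Agent.Lib.MP_5c9ca0_co

/-- Every rational number `q` with `2 ≤ q ≤ 20/9` is the ratio of the circular flow number and
the 2-dimensional Chebyshev flow number of a snark; the snark has Chebyshev flow number 9/4. -/
theorem result (q : ℚ) (h1 : 2 ≤ q) (h2 : q ≤ 20 / 9) :
    ∃ (n m : ℕ) (G : MGraph n m), G.IsSnark ∧ G.circ = 9 / 4 * (q : ℝ) ∧ G.cheb = 9 / 4 ∧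
      G.circ / G.cheb = (q : ℝ) := by
  obtain ⟨n, m, G, k1, k2, k3⟩ := exists_snark (9 / 4 * q) (by linarith) (by linarith)
  have k4 : G.circ = 9 / 4 * (q : ℝ) := by
    rw [k2]
    push_cast
    rfl
  refine ⟨n, m, G, k1, k4, k3, ?_⟩
  rw [k4, k3]
  field_simp

end Pool.Agent.Retired.MP_5c9ca0_co.Interval
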