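import Pool.Agent.Lib.MP_5c9ca0_co.Defs
import Pool.Agent.Lib.MP_5c9ca0_co.Graph

namespace Pool.Agent.Retired.MP_5c9ca0_co.Ratio

open Pool.Agent.Lib.MP_5c9ca0_co

/-- There is a snark with circular flow number 5 and 2-dimensional Chebyshev flow number 9/4,
so 20/9 is a ratio. -/
theorem result : ∃ (n m : ℕ) (G : MGraph n m), G.IsSnark ∧ G.circ = 5 ∧ G.cheb = 9 / 4 ∧
    G.circ / G.cheb = 20 / 9 :=
  ⟨52, 78, G52, snark, circ_eq, cheb_eq, by rw [circ_eq, cheb_eq]; norm_num⟩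

end Pool.Agent.Retired.MP_5c9ca0_co.Ratio
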